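import Pool.Agent.Q189.IB.Stm

/-!
# Incomplete beta integrals (helper189): job SD (helper31)
-/

set_option autoImplicit false

open PowerSeries

namespace Pool.Agent.Q31.IB

open Pool.Agent.Y113 (SDc)
open Pool.Agent.Y124.GE (R R_zero R_succ NIc_R had SDc_had SDc_of)
open Pool.Agent.Q189.IB

/-- `(1 - x) ^ (-v)` -/
noncomputable def Bv (v : ℚ) : ℚ⟦X⟧ := R v.num v.den

lemma Bv_zero (v : ℚ) : coeff 0 (Bv v) = 1 := R_zero _ _

lemma Bv_succ (v : ℚ) (n : ℕ) : ((n : ℚ) + 1) * coeff (n + 1) (Bv v) = (v + n) * coeff n (Bv v) := by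
  rw [Bv, R_succ]
  have hd : (v.den : ℚ) ≠ 0 := by exact_mod_cast v.pos.ne'
  have h3 : (v.num : ℚ) = v.den * v := by rw [mul_comm]; exact (Rat.mul_den_eq_num v).symm
  have hn : ((n : ℚ) + 1) ≠ 0 := by positivity
  rw [h3]
  field_simp

lemma SDc_Bv (v : ℚ) : SDc (Bv v) := (NIc_R _ _ v.pos).SDc

lemma coeff_Xd (f : ℚ⟦X⟧) (n : ℕ) : coeff n (X * d⁄dX ℚ f) = n * coeff n f := by
  cases n with
  | zero => simp
  | succ n =>
    rw [coeff_succ_X_mul, coeff_derivative]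
    push_cast
    ring

lemma Bv_ode (v : ℚ) : (1 - X) * d⁄dX ℚ (Bv v) = C v * Bv v := by
  ext n
  rw [sub_mul, one_mul, map_sub, coeff_Xd, coeff_C_mul, coeff_derivative]
  have := Bv_succ v n
  linear_combination this

lemma one_sub_X_ne : (1 - X : ℚ⟦X⟧) ≠ 0 := by
  intro h
  have := congrArg (coeff 0) h
  simp at this

lemma Bv_mul (v : ℚ) : (1 - X) * (Bv v * Bv (1 - v)) = 1 := by
  have h1 := Bv_ode v
  have h2 := Bv_ode (1 - v)
  have hC : (C (1 - v) : ℚ⟦X⟧) = 1 - C v := by rw [map_sub, map_one]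
  rw [hC] at h2
  have h3 : d⁄dX ℚ ((1 - X) * (Bv v * Bv (1 - v))) =
      -(Bv v * Bv (1 - v)) + (1 - X) * (d⁄dX ℚ (Bv v) * Bv (1 - v) + Bv v * d⁄dX ℚ (Bv (1 - v))) := by
    rw [Derivation.leibniz, Derivation.leibniz, map_sub, derivative_X, Derivation.map_one_eq_zero]
    simp only [smul_eq_mul]
    ring
  have h4 : (1 - X) * d⁄dX ℚ ((1 - X) * (Bv v * Bv (1 - v))) = 0 := by
    rw [h3]
    linear_combination ((1 - X) * Bv (1 - v)) * h1 + ((1 - X) * Bv v) * h2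
  have h5 : d⁄dX ℚ ((1 - X) * (Bv v * Bv (1 - v))) = 0 := (mul_eq_zero.1 h4).resolve_left one_sub_X_ne
  refine derivative.ext ?_ ?_
  · rw [h5, Derivation.map_one_eq_zero]
  · have e1 : constantCoeff (Bv v) = 1 := by rw [← coeff_zero_eq_constantCoeff]; exact Bv_zero v
    have e2 : constantCoeff (Bv (1 - v)) = 1 := by rw [← coeff_zero_eq_constantCoeff]; exact Bv_zero _
    rw [map_mul, map_mul, e1, e2]
    simp

/-- the series `∑ x^m / (u + m)` -/
noncomputable def W (u : ℚ) : ℚ⟦X⟧ := PowerSeries.mk fun m => 1 / (u + m)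

lemma SDc_W {u : ℚ} (hu : 0 < u) : SDc (W u) := by
  obtain ⟨P, hP⟩ : ∃ P : ℕ, (P : ℤ) = u.num := ⟨u.num.toNat, Int.toNat_of_nonneg (Rat.num_nonneg.2 hu.le)⟩
  obtain ⟨d, hd⟩ : ∃ d : ℕ, d = u.den := ⟨_, rfl⟩
  have hd0 : 0 < d := hd ▸ u.pos
  have hd0' : (d : ℚ) ≠ 0 := by exact_mod_cast hd0.ne'
  have hPu : (P : ℚ) = d * u := by
    have h1 : ((P : ℤ) : ℚ) = (u.num : ℚ) := by rw [hP]
    rw [hd, mul_comm, Rat.mul_den_eq_num]
    exact_mod_cast h1
  have hP0 : 0 < P := by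
    have : (0 : ℚ) < P := by rw [hPu]; positivity
    exact_mod_cast this
  have hden : ∀ m : ℕ, u + m ≠ 0 := fun m => by positivity
  have hval : ∀ m : ℕ, 1 / (u + m) = (d : ℚ) / ((P + d * m : ℕ) : ℚ) := by
    intro m
    have h1 : ((P + d * m : ℕ) : ℚ) = d * (u + m) := by
      push_cast
      rw [hPu]
      ring
    rw [h1]
    have := hden m
    field_simp
  have hM1 : (1 : ℝ) ≤ (2 ^ 8) ^ (P + d) := one_le_pow₀ (by norm_num)
  refine SDc_of (M := (2 ^ 8) ^ (P + d)) hM1 (fun m => ?_) fun m =>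
    ⟨Nat.lcmUpto (P + d * m), Nat.lcmUpto_pos _, ?_, fun j hj => ?_⟩
  · rw [W, coeff_mk, hval]
    have h1 : (1 : ℝ) ≤ ((P + d * m : ℕ) : ℝ) := by exact_mod_cast (by omega : 1 ≤ P + d * m)
    have h2 : (((d : ℚ) / ((P + d * m : ℕ) : ℚ) : ℚ) : ℝ) = (d : ℝ) / ((P + d * m : ℕ) : ℝ) := by push_cast; rfl
    rw [h2, abs_of_nonneg (by positivity)]
    calc (d : ℝ) / ((P + d * m : ℕ) : ℝ) ≤ d := div_le_self (by positivity) h1
      _ ≤ 2 ^ d := by exact_mod_cast (Nat.lt_two_pow_self (n := d)).le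
      _ ≤ (2 ^ 8 : ℝ) ^ d := pow_le_pow_left₀ (by norm_num) (by norm_num) _
      _ ≤ (2 ^ 8 : ℝ) ^ (P + d) := pow_le_pow_right₀ (by norm_num) (by omega)
      _ ≤ ((2 ^ 8) ^ (P + d)) ^ (m + 1) := le_self_pow₀ hM1 (Nat.succ_ne_zero m)
  · have h3 : P + d * m ≤ (P + d) * (m + 1) := by nlinarith
    calc ((Nat.lcmUpto (P + d * m) : ℕ) : ℝ) ≤ (2 ^ 8 : ℝ) ^ (P + d * m) := Pool.Agent.Y113.lcm_bound _
      _ ≤ (2 ^ 8 : ℝ) ^ ((P + d) * (m + 1)) := pow_le_pow_right₀ (by norm_num) h3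
      _ = ((2 ^ 8 : ℝ) ^ (P + d)) ^ (m + 1) := pow_mul _ _ _
  · rw [W, coeff_mk, hval]
    have h1 : P + d * j ∣ Nat.lcmUpto (P + d * m) :=
      Finset.dvd_lcm (Finset.mem_Icc.2 ⟨by omega, by nlinarith⟩)
    obtain ⟨c, hc⟩ := h1
    refine ⟨c * d, ?_⟩
    rw [hc]
    have h2 : ((P + d * j : ℕ) : ℚ) ≠ 0 := by exact_mod_cast (by omega : P + d * j ≠ 0)
    push_cast at h2 ⊢
    field_simp

/-- uniqueness of the solution of the differential equation -/
lemma unique {u v : ℚ} (hu : 0 < u) {y : ℚ⟦X⟧}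
    (hy : X * (1 - X) * d⁄dX ℚ y = 1 + (C (-u) + C (u + v) * X) * y) : y = hs u v := by
  have h0 : coeff 0 y = 1 / u := by
    have h1 := congrArg (coeff 0) hy
    rw [mul_assoc, coeff_zero_X_mul, add_mul, map_add, map_add, coeff_C_mul, mul_assoc, coeff_C_mul,
      coeff_zero_X_mul, coeff_zero_one] at h1
    field_simp
    linarith
  have hs' : ∀ m : ℕ, ((m : ℚ) + 1 + u) * coeff (m + 1) y = (m + u + v) * coeff m y := by
    intro m
    have h1 := congrArg (coeff (m + 1)) hy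
    rw [mul_assoc, coeff_succ_X_mul, sub_mul, one_mul, map_sub, coeff_Xd, coeff_derivative, add_mul, map_add,
      map_add, coeff_C_mul, mul_assoc, coeff_C_mul, coeff_succ_X_mul, coeff_one, if_neg (Nat.succ_ne_zero m)] at h1
    linear_combination h1
  ext m
  rw [hs, coeff_mk]
  induction m with
  | zero =>
    rw [h0]
    simp [cf]
  | succ m ih =>
    have h1 := hs' m
    rw [ih] at h1
    have h2 : (m : ℚ) + 1 + u ≠ 0 := by positivity
    have h3 : cf u v (m + 1) = cf u v m * (u + v + m) / (u + (m + 1 : ℕ)) := by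
      rw [cf, cf, Finset.prod_range_succ, Finset.prod_range_succ _ (m + 1)]
      have h4 : (∏ i ∈ Finset.range (m + 1), (u + (i : ℚ))) ≠ 0 :=
        Finset.prod_ne_zero_iff.2 fun i _ => by positivity
      have h5 : (u + ((m + 1 : ℕ) : ℚ)) ≠ 0 := by positivity
      field_simp
    rw [h3]
    have h5 : (u + ((m + 1 : ℕ) : ℚ)) ≠ 0 := by positivity
    rw [eq_div_iff h5]
    push_cast
    linear_combination h1

theorem eq_prod {u v : ℚ} (hu : 0 < u) : Bv v * had (Bv (1 - v)) (W u) = hs u v := by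
  refine unique hu ?_
  obtain ⟨g, hg⟩ : ∃ g, g = had (Bv (1 - v)) (W u) := ⟨_, rfl⟩
  rw [← hg]
  have h1 : X * d⁄dX ℚ g = Bv (1 - v) - C u * g := by
    ext m
    rw [coeff_Xd, map_sub, coeff_C_mul, hg, had, coeff_mk, W, coeff_mk]
    have : u + (m : ℚ) ≠ 0 := by positivity
    field_simp
    ring
  have h2 := Bv_ode v
  have h3 := Bv_mul v
  rw [Derivation.leibniz]
  simp only [smul_eq_mul, map_add, map_neg]
  linear_combination ((1 - X) * Bv v) * h1 + (X * g) * h2 + h3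

/-- JOB SD -/
theorem sd : S_SD := fun u v hu => by
  rw [← eq_prod hu]
  exact (SDc_Bv v).mul (SDc_had (SDc_Bv (1 - v)) (SDc_W hu))

end Pool.Agent.Q31.IB
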